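import Pool.Agent.MWGR.StmtsF

/-!
# Block MWGR, row EAL: the bit `E` gives all edges
-/

namespace Pool.Agent.MWGR.H93

open Pool.Agent.Helper14_MV Pool.Agent.Helper2_MV Pool.Agent.MVO Pool.Agent.MWL Pool.Agent.MWS
  Pool.Agent.MWH

theorem flatMap_X (g : ℕ → List ℕ) (y m : ℕ) (hg : g 0 = [y]) :
    (X m).flatMap g = List.replicate m y := by
  induction m with
  | zero => rfl
  | succ m ih =>
    show (0 :: X m).flatMap g = y :: List.replicate m y
    rw [List.flatMap_cons, hg, ih]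
    rfl

theorem two_occ {L : List ℕ} {y : ℕ} (h : 2 ≤ L.count y) :
    ∃ p w q, L = p ++ y :: (w ++ y :: q) := by
  have h1 : y ∈ L := List.count_pos_iff.1 (by omega)
  obtain ⟨p, r, rfl, hp⟩ := List.eq_append_cons_of_mem h1
  have h2 : y ∈ r := by
    rw [List.count_append, List.count_cons_self, List.count_eq_zero.2 hp] at h
    exact List.count_pos_iff.1 (by omega)
  obtain ⟨w, q, rfl⟩ := List.append_of_mem h2
  exact ⟨p, w, q, rfl⟩

theorem eal (h1 : MWGP.GapStmt) (h2 : ExgStmt) : EalStmt := by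
  intro n θ hB hE
  have _ := h1
  have hn := hB.pos
  -- the bit
  have e0 : RR θ [0, 0, 2] (0 :: 0 :: 2 :: X (2 * n)) := by
    have h : RR θ (mw 1 (v2 2 0)) (mw 1 (ad n (v2 2 0) 1)) := hE
    have a1 : mw 1 (v2 2 0) = [0, 0, 2] := by rfl
    have a2 : mw 1 (ad n (v2 2 0) 1) = 0 :: 0 :: 2 :: X (2 * n) := by
      show List.replicate (v2 2 0 0 + if 0 = 1 then 2 * n else 0) 0 ++
        2 :: List.replicate (v2 2 0 1 + if 1 = 1 then 2 * n else 0) 0 = _
      simp [v2]
    rw [a1, a2] at h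
    exact h
  have e1 : ∀ (y : ℕ) (r : List ℕ), RR θ (y :: y :: r)
      (y :: y :: (r ++ List.replicate (2 * n) y)) := by
    intro y r
    have h := e0.sub (fun c => if c = 0 then [y] else if c = 2 then r else [c])
    have b1 : ([0, 0, 2] : List ℕ).flatMap
        (fun c => if c = 0 then [y] else if c = 2 then r else [c]) = y :: y :: r := by
      simp
    have b2 : (0 :: 0 :: 2 :: X (2 * n)).flatMap
        (fun c => if c = 0 then [y] else if c = 2 then r else [c]) =
        y :: y :: (r ++ List.replicate (2 * n) y) := by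
      rw [List.flatMap_cons, List.flatMap_cons, List.flatMap_cons, flatMap_X _ y _ (by simp)]
      simp
    rw [b1, b2] at h
    exact h
  -- `y^(2n)` may be added at the end
  have e2 : ∀ (L : List ℕ) (y : ℕ), 2 ≤ L.count y → RR θ L (L ++ List.replicate (2 * n) y) := by
    intro L y hy
    obtain ⟨p, w, q, rfl⟩ := two_occ hy
    have hmod : 1 ≡ n + 1 [MOD n] := by
      show 1 % n = (n + 1) % n
      rw [Nat.add_mod_left]
    have c1 : ∀ q' : List ℕ, RR θ (p ++ y :: (w ++ y :: q'))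
        ((p ++ y :: w) ++ (List.replicate (n + 1) y ++ q')) := by
      intro q'
      have h := (h2 n θ hB (p ++ y :: w) q' y 1 (n + 1) hmod).1 (by simp) le_rfl (by omega)
      have e : (p ++ y :: w) ++ (List.replicate 1 y ++ q') = p ++ y :: (w ++ y :: q') := by
        simp
      rw [e] at h
      exact h
    have c2 : RR θ ((p ++ y :: w) ++ (List.replicate (n + 1) y ++ q))
        ((p ++ y :: w) ++ (List.replicate (n + 1) y ++ (q ++ List.replicate (2 * n) y))) := by
      obtain ⟨m, rfl⟩ : ∃ m, n = m + 1 := ⟨n - 1, by omega⟩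
      have h := (RR.refl (β := θ) (p ++ y :: w)).append (e1 y (List.replicate m y ++ q))
      have e3 : ∀ q' : List ℕ, y :: y :: (List.replicate m y ++ q') =
          List.replicate (m + 1 + 1) y ++ q' := by
        intro q'
        rfl
      rw [List.append_assoc (List.replicate m y), e3, e3] at h
      exact h
    have c3 := θ.trans (c1 q) (θ.trans c2 (RR.symm (c1 (q ++ List.replicate (2 * n) y))))
    have e4 : p ++ y :: (w ++ y :: (q ++ List.replicate (2 * n) y)) =
        p ++ y :: (w ++ y :: q) ++ List.replicate (2 * n) y := by simp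
    rw [e4] at c3
    exact c3
  obtain ⟨m, hm⟩ : ∃ m, 2 * n = m + 1 := ⟨2 * n - 1, by omega⟩
  have hXm : X (2 * n) = 0 :: X m := by rw [hm]; rfl
  -- exchange of `x` and `a` if `|a x^(2n)` follows
  have sw : ∀ p s : List ℕ, RR θ (p ++ 1 :: 0 :: (s ++ 2 :: 1 :: X (2 * n)))
      (p ++ 0 :: 1 :: (s ++ 2 :: 1 :: X (2 * n))) := by
    intro p s
    have h := hB.f p (s ++ [2]) [] (X m) 1 0 (by intro a ha; exact absurd ha List.not_mem_nil)
    have e : ∀ u v : ℕ, p ++ u :: v :: ((s ++ [2]) ++ 1 :: ([] ++ 0 :: X m)) =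
        p ++ u :: v :: (s ++ 2 :: 1 :: X (2 * n)) := by
      intro u v
      rw [hXm]
      simp
    rw [e, e] at h
    exact h
  have swm : ∀ (t : ℕ) (p s : List ℕ), RR θ (p ++ 1 :: (X t ++ (s ++ 2 :: 1 :: X (2 * n))))
      (p ++ (X t ++ 1 :: (s ++ 2 :: 1 :: X (2 * n)))) := by
    intro t
    induction t with
    | zero => intro p s; exact RR.refl _
    | succ t ih =>
      intro p s
      have a1 := sw p (X t ++ s)
      have a2 := ih (p ++ [0]) s
      have b1 : p ++ 1 :: 0 :: (X t ++ s ++ 2 :: 1 :: X (2 * n)) =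
          p ++ 1 :: (X (t + 1) ++ (s ++ 2 :: 1 :: X (2 * n))) := by
        rw [List.append_assoc]; rfl
      have b2 : p ++ 0 :: 1 :: (X t ++ s ++ 2 :: 1 :: X (2 * n)) =
          (p ++ [0]) ++ 1 :: (X t ++ (s ++ 2 :: 1 :: X (2 * n))) := by
        rw [List.append_assoc (X t)]; simp
      have b3 : (p ++ [0]) ++ (X t ++ 1 :: (s ++ 2 :: 1 :: X (2 * n))) =
          p ++ (X (t + 1) ++ 1 :: (s ++ 2 :: 1 :: X (2 * n))) := by
        rw [List.append_assoc]; rfl
      rw [b1, b2] at a1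
      rw [b3] at a2
      exact θ.trans a1 a2
  -- gathering
  have gath : ∀ s t : ℕ, 2 ≤ s + t → RR θ (X s ++ 1 :: (X t ++ [2, 1]))
      (X (s + t) ++ 1 :: 2 :: 1 :: X (2 * n)) := by
    intro s t hst
    have a1 := e2 (X s ++ 1 :: (X t ++ [2, 1])) 0 (by
      simp only [List.count_append, List.count_cons, List.count_replicate, List.count_nil]
      simp
      omega)
    have a2 := swm t (X s) []
    have b1 : X s ++ 1 :: (X t ++ [2, 1]) ++ List.replicate (2 * n) 0 =
        X s ++ 1 :: (X t ++ ([] ++ 2 :: 1 :: X (2 * n))) := by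
      simp
    have b2 : X s ++ (X t ++ 1 :: ([] ++ 2 :: 1 :: X (2 * n))) =
        X (s + t) ++ 1 :: 2 :: 1 :: X (2 * n) := by
      rw [← List.append_assoc, ← List.replicate_add]
      rfl
    rw [b1] at a1
    rw [b2] at a2
    exact θ.trans a1 a2
  have hX : RR θ (X 2 ++ 1 :: 2 :: 1 :: X (2 * n)) (X (n + 2) ++ 1 :: 2 :: 1 :: X (2 * n)) := by
    have hmod : 2 ≡ n + 2 [MOD n] := by
      show 2 % n = (n + 2) % n
      rw [Nat.add_mod_left]
    have h := (h2 n θ hB [] (1 :: 2 :: 1 :: X (2 * n)) 0 2 (n + 2) hmod).2.1 le_rfl (by omega)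
    exact h
  refine ⟨?_, ?_, ?_, ?_⟩
  · have a1 := gath 2 0 (by norm_num)
    have a2 := gath 2 n (by omega)
    rw [show 2 + n = n + 2 by omega] at a2
    exact θ.trans a1 (θ.trans hX (RR.symm a2))
  · have a1 := gath 0 2 (by norm_num)
    have a2 := gath n 2 (by omega)
    rw [show 0 + 2 = 2 by rfl] at a1
    exact θ.trans a1 (θ.trans hX (RR.symm a2))
  · have a1 := e2 [0, 1, 2, 0, 3, 1] 0 (by decide)
    have a2 := e2 [1, 0, 2, 0, 3, 1] 0 (by decide)
    have a3 := hB.f [] [2, 0, 3] [] (X m) 1 0 (by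
      intro a ha; exact absurd ha List.not_mem_nil)
    have b1 : ([0, 1, 2, 0, 3, 1] : List ℕ) ++ List.replicate (2 * n) 0 =
        [] ++ 0 :: 1 :: ([2, 0, 3] ++ 1 :: ([] ++ 0 :: X m)) := by
      show ([0, 1, 2, 0, 3, 1] : List ℕ) ++ X (2 * n) = _
      rw [hXm]; rfl
    have b2 : ([1, 0, 2, 0, 3, 1] : List ℕ) ++ List.replicate (2 * n) 0 =
        [] ++ 1 :: 0 :: ([2, 0, 3] ++ 1 :: ([] ++ 0 :: X m)) := by
      show ([1, 0, 2, 0, 3, 1] : List ℕ) ++ X (2 * n) = _
      rw [hXm]; rfl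
    rw [b1] at a1
    rw [b2] at a2
    exact θ.trans a1 (θ.trans (RR.symm a3) (RR.symm a2))
  · have a1 := gath (n + 1) n (by omega)
    have a2 := gath n (n + 1) (by omega)
    rw [show n + 1 + n = n + (n + 1) by omega] at a1
    exact θ.trans a1 (RR.symm a2)

end Pool.Agent.MWGR.H93
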